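import Mathlib
import Pool.Agent.NH91.CW.All
import Pool.Agent.NH91.CW.Seq
import Pool.Agent.NH91.CW.Fus
import Pool.Agent.NH91.CW.Sub
import Pool.Agent.NH91.CW.Idl
import Pool.Agent.NH91.CW.Del
import Pool.Agent.NH91.CW.Gre
import Pool.Agent.NH91.CW.Ant
import Pool.Agent.NH91.CW.Step
import Pool.Agent.NH91.CW.Constr
import Pool.Agent.NH91.CW.Tre

/-!
# The relation `α → (α, infinite path)²` in ZFC: cardinals of countable cofinality
-/

set_option autoImplicit false

namespace Pool.Agent.Results.MP_820435_lc.CountableCofinality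

open Cardinal Ordinal

/-- The relation `α → (α, infinite path)²`: for every partition of the pairs of a well-order of type
`α` into two classes, with the second class written as the edge set of a graph `G`, there is a set
of type `α` without pairs in the second class, or an injective sequence whose consecutive terms form
pairs in the second class. -/
def Rel (α : Ordinal.{0}) : Prop :=
  ∀ G : SimpleGraph α.ToType,
    (∃ Y : Set α.ToType, G.IsIndepSet Y ∧ typeLT Y = α) ∨
    ∃ f : ℕ → α.ToType, Function.Injective f ∧ ∀ n, G.Adj (f n) (f (n + 1))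

/-- Let `α` be a nonzero limit ordinal. Then `α → (α, infinite path)²` holds if and only if it holds
for those terms `ω ^ γ` of the Cantor normal form of `α` whose cardinality `κ` has uncountable
cofinality and which are at least `κ ^ (μ + 2)` (ordinal arithmetic) for every infinite cardinal
`μ < κ`. In particular it holds if there is no such term. -/
theorem result (α : Ordinal.{0}) (hα : Order.IsSuccLimit α) :
    Rel α ↔ ∀ γ ∈ (CNF ω α).map Prod.fst, ∀ κ : Cardinal.{0}, (ω ^ γ).card = κ →
      ℵ₀ < κ.ord.cof →
      (∀ μ : Cardinal.{0}, ℵ₀ ≤ μ → μ < κ → κ.ord ^ (μ.ord + 2) ≤ ω ^ γ) → Rel (ω ^ γ) :=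
  NH91.CW.rel_all
    (NH91.CW.t_CON NH91.CW.t_SEQ NH91.CW.t_FUS NH91.CW.t_DEL
      (NH91.CW.t_STEP NH91.CW.t_SUB NH91.CW.t_IDL (NH91.CW.t_ANT NH91.CW.t_GRE)))
    NH91.CW.t_TRE hα

end Pool.Agent.Results.MP_820435_lc.CountableCofinality
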